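import Pool.Agent.H33.EL.Defs

/-!
# Type F_4: standing hypotheses for the simply laced Lie algebra (helper31, MP_a408f4_al)

The files in this directory `B` are copies of the basic files of `Pool.Agent.H33.EL` under the
weaker hypothesis `HypW`, which does not contain the nondegeneracy of the form (false for E_6 in
characteristic 3).
-/

namespace Pool.Agent.H31.F4

open Pool.Agent.H33.EL (ip cc eps Rt ng zk ek fk LL hh e brf fmf br fm IsExt exl ex xr hd L0 GG T1 TT NN SF cj wt)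

variable {n : ℕ}

/-- the standing hypotheses on the Gram matrix and the field -/
structure HypW (C : Matrix (Fin n) (Fin n) ℤ) [Fintype (Rt C)] (K : Type) [Field K] : Prop where
  symm : ∀ i j, C i j = C j i
  diag : ∀ i, C i i = 2
  pos : ∀ x : Fin n → ℤ, x ≠ 0 → 0 < ip C x x
  one : ∀ a : Rt C, ∃ y : Rt C, ip C y.1 a.1 = 1
  ra : ∀ a b : Rt C, (ip C a.1 b.1 = 0 ∨ ip C a.1 b.1 = 1 ∨ ip C a.1 b.1 = -1) →
    ∃ y : Rt C, ip C y.1 a.1 = 1 ∧ ip C y.1 b.1 = 0
  rb : ∀ a b : Rt C, ip C a.1 b.1 = 0 → ∃ y : Rt C, ip C y.1 a.1 = 1 ∧ ip C y.1 b.1 = -1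
  card : Nat.card K = 7 ∨ Nat.card K = 9 ∨ Nat.card K = 11

end Pool.Agent.H31.F4
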