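import Pool.Agent.H31.F4.B.FilA

/-!
# EL-26: the graded group, see the header of `FilA`
-/

namespace Pool.Agent.H31.F4

open Pool.Agent.H33.EL (ip cc eps Rt ng zk ek fk LL hh e brf fmf br fm IsExt exl ex xr hd L0 GG T1 TT NN SF cj wt)

variable {n : ℕ} {C : Matrix (Fin n) (Fin n) ℤ} {K : Type} [Field K] [Fintype (Rt C)]

/-- the graded automorphism (chosen) -/
noncomputable def gr (H : HypW C K) (d : Fin n → ℤ) : Par C K d →* (LL C K ≃ₗ[K] LL C K) :=
  (gr_exists H d).choose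

/-! ### helper lemmas on `Fil` and `Grd` -/

omit [Fintype (Rt C)] in
theorem Fil_zero_of {d : Fin n → ℤ} {k : ℤ} {x : LL C K} (h1 : x ∈ Grd C K d k)
    (h2 : x ∈ Fil C K d (k + 1)) : x = 0 := by
  refine Prod.ext ?_ (funext fun b => ?_)
  · by_cases hk : k = 0
    · exact h2.2 (by omega)
    · exact h1.2 hk
  · by_cases hb : ip C d b.1 = k
    · exact h2.1 b (by omega)
    · exact h1.1 b hb

omit [Fintype (Rt C)] in
theorem Fil_anti {d : Fin n → ℤ} {k l : ℤ} (hkl : k ≤ l) {x : LL C K}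
    (h : x ∈ Fil C K d l) : x ∈ Fil C K d k :=
  ⟨fun b hb => h.1 b (by omega), fun hk => h.2 (by omega)⟩

omit [Fintype (Rt C)] in
theorem Fil_of_Grd {d : Fin n → ℤ} {k : ℤ} {x : LL C K} (h : x ∈ Grd C K d k) :
    x ∈ Fil C K d k :=
  ⟨fun b hb => h.1 b (by omega), fun hk => h.2 (by omega)⟩

theorem Fil_e_grd (d : Fin n → ℤ) (a : Rt C) : e K a ∈ Grd C K d (ip C d a.1) := by
  refine ⟨fun b hb => ?_, fun _ => rfl⟩
  apply e_snd_ne
  rintro rfl
  exact hb rfl

theorem Fil_hh_grd (d : Fin n → ℤ) (h : Fin n → K) : hh C h ∈ Grd C K d 0 :=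
  ⟨fun _ _ => rfl, fun hk => absurd rfl hk⟩

theorem Fil_e_fil (d : Fin n → ℤ) (a : Rt C) {k : ℤ} (hk : k ≤ ip C d a.1) :
    e K a ∈ Fil C K d k := Fil_anti hk (Fil_of_Grd (Fil_e_grd d a))

theorem Fil_hh_fil (d : Fin n → ℤ) (h : Fin n → K) {k : ℤ} (hk : k ≤ 0) :
    hh C h ∈ Fil C K d k := Fil_anti hk (Fil_of_Grd (Fil_hh_grd d h))

/-- a linear map preserving the grading on the basis -/
theorem Fil_grd_basis {d : Fin n → ℤ} (f : LL C K →ₗ[K] LL C K)
    (h1 : ∀ h : Fin n → K, f (hh C h) ∈ Grd C K d 0)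
    (h2 : ∀ a : Rt C, f (e K a) ∈ Grd C K d (ip C d a.1)) (k : ℤ) (x : LL C K)
    (hx : x ∈ Grd C K d k) : f x ∈ Grd C K d k := by
  rw [decomp x, map_add, map_sum]
  refine add_mem ?_ (Submodule.sum_mem _ fun a _ => ?_)
  · by_cases hk : k = 0
    · rw [hk]
      exact h1 _
    · rw [hx.2 hk, hh_zero, map_zero]
      exact zero_mem _
  · rw [map_smul]
    by_cases ha : ip C d a.1 = k
    · rw [← ha]
      exact Submodule.smul_mem _ _ (h2 a)
    · rw [hx.1 a ha, zero_smul]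
      exact zero_mem _

/-- a linear map raising the filtration on the basis -/
theorem Fil_raise {d : Fin n → ℤ} (f : LL C K →ₗ[K] LL C K) (m : ℤ)
    (h1 : ∀ h : Fin n → K, f (hh C h) ∈ Fil C K d m)
    (h2 : ∀ a : Rt C, f (e K a) ∈ Fil C K d (ip C d a.1 + m)) (k : ℤ) (x : LL C K)
    (hx : x ∈ Fil C K d k) : f x ∈ Fil C K d (k + m) := by
  rw [decomp x, map_add, map_sum]
  refine add_mem ?_ (Submodule.sum_mem _ fun a _ => ?_)
  · by_cases hk : 0 < k
    · rw [hx.2 hk, hh_zero, map_zero]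
      exact zero_mem _
    · exact Fil_anti (by omega) (h1 _)
  · rw [map_smul]
    by_cases ha : ip C d a.1 < k
    · rw [hx.1 a ha, zero_smul]
      exact zero_mem _
    · exact Submodule.smul_mem _ _ (Fil_anti (by omega) (h2 a))

theorem Fil_gr_spec (H : HypW C K) {d : Fin n → ℤ} (g : Par C K d) {k : ℤ} {x : LL C K}
    (hx : x ∈ Grd C K d k) :
    (g : LL C K ≃ₗ[K] LL C K) x - gr H d g x ∈ Fil C K d (k + 1) :=
  (gr_exists H d).choose_spec.2.2 g k x hx

theorem gr_mem_GG (H : HypW C K) {d : Fin n → ℤ} (g : Par C K d) : gr H d g ∈ GG C K :=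
  (gr_exists H d).choose_spec.1 g

theorem gr_grd (H : HypW C K) {d : Fin n → ℤ} (g : Par C K d) {k : ℤ} {x : LL C K}
    (hx : x ∈ Grd C K d k) : gr H d g x ∈ Grd C K d k :=
  (gr_exists H d).choose_spec.2.1 g k x hx

/-- uniqueness of the graded part, checked on the basis -/
theorem Fil_gr_unique (H : HypW C K) {d : Fin n → ℤ} (g : Par C K d)
    (f : LL C K ≃ₗ[K] LL C K)
    (h1 : ∀ h : Fin n → K, f (hh C h) ∈ Grd C K d 0)
    (h2 : ∀ a : Rt C, f (e K a) ∈ Grd C K d (ip C d a.1))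
    (h3 : ∀ h : Fin n → K, (g : LL C K ≃ₗ[K] LL C K) (hh C h) - f (hh C h) ∈ Fil C K d 1)
    (h4 : ∀ a : Rt C,
      (g : LL C K ≃ₗ[K] LL C K) (e K a) - f (e K a) ∈ Fil C K d (ip C d a.1 + 1)) :
    gr H d g = f := by
  have key : ((gr H d g : LL C K ≃ₗ[K] LL C K) : LL C K →ₗ[K] LL C K) =
      (f : LL C K →ₗ[K] LL C K) := by
    apply ext_basis
    · intro h
      show gr H d g (hh C h) = f (hh C h)
      have h5 := Fil_gr_spec H g (Fil_hh_grd (K := K) d h)
      have h6 := gr_grd H g (Fil_hh_grd (K := K) d h)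
      have h7 : gr H d g (hh C h) - f (hh C h) ∈ Fil C K d (0 + 1) := by
        have h8 := sub_mem (h3 h) h5
        have h9 : gr H d g (hh C h) - f (hh C h) =
            (g : LL C K ≃ₗ[K] LL C K) (hh C h) - f (hh C h) -
              ((g : LL C K ≃ₗ[K] LL C K) (hh C h) - gr H d g (hh C h)) := by abel
        rw [h9]
        exact h8
      exact sub_eq_zero.1 (Fil_zero_of (sub_mem h6 (h1 h)) h7)
    · intro a
      show gr H d g (e K a) = f (e K a)
      have h5 := Fil_gr_spec H g (Fil_e_grd (K := K) d a)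
      have h6 := gr_grd H g (Fil_e_grd (K := K) d a)
      have h7 : gr H d g (e K a) - f (e K a) ∈ Fil C K d (ip C d a.1 + 1) := by
        have h8 := sub_mem (h4 a) h5
        have h9 : gr H d g (e K a) - f (e K a) =
            (g : LL C K ≃ₗ[K] LL C K) (e K a) - f (e K a) -
              ((g : LL C K ≃ₗ[K] LL C K) (e K a) - gr H d g (e K a)) := by abel
        rw [h9]
        exact h8
      exact sub_eq_zero.1 (Fil_zero_of (sub_mem h6 (h2 a)) h7)
  exact LinearEquiv.ext fun x => LinearMap.congr_fun key x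

theorem gr_fix (H : HypW C K) {d : Fin n → ℤ} (g : Par C K d)
    (h : ∀ k, ∀ x ∈ Grd C K d k, (g : LL C K ≃ₗ[K] LL C K) x ∈ Grd C K d k) :
    gr H d g = g := by
  apply Fil_gr_unique H g
  · intro k
    exact h 0 _ (Fil_hh_grd d k)
  · intro a
    exact h _ _ (Fil_e_grd d a)
  · intro k
    rw [sub_self]
    exact zero_mem _
  · intro a
    rw [sub_self]
    exact zero_mem _

/-- `gr_fix` from the basis -/
theorem Fil_gr_fix_basis (H : HypW C K) {d : Fin n → ℤ} (g : Par C K d)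
    (h1 : ∀ h : Fin n → K, (g : LL C K ≃ₗ[K] LL C K) (hh C h) ∈ Grd C K d 0)
    (h2 : ∀ a : Rt C, (g : LL C K ≃ₗ[K] LL C K) (e K a) ∈ Grd C K d (ip C d a.1)) :
    gr H d g = g := by
  apply Fil_gr_unique H g _ h1 h2
  · intro k
    rw [sub_self]
    exact zero_mem _
  · intro a
    rw [sub_self]
    exact zero_mem _

theorem gr_mem_Par (H : HypW C K) {d : Fin n → ℤ} (g : Par C K d) :
    gr H d g ∈ Par C K d :=
  mem_Par_of_root H (gr_mem_GG H g) fun a => Fil_of_Grd (gr_grd H g (Fil_e_grd d a))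

theorem gr_gr (H : HypW C K) {d : Fin n → ℤ} (g : Par C K d) :
    gr H d ⟨gr H d g, gr_mem_Par H g⟩ = gr H d g :=
  gr_fix H ⟨gr H d g, gr_mem_Par H g⟩ fun _ _ hx => gr_grd H g hx

/-- toral elements preserve the grading -/
theorem TT_le_Par (H : HypW C K) (d : Fin n → ℤ) : TT C K ≤ Par C K d := by
  intro t ht
  apply mem_Par_of_root H (TT_le_GG ht)
  intro a
  rw [TT_e H ht]
  exact Submodule.smul_mem _ _ (Fil_e_fil d a le_rfl)

theorem gr_TT (H : HypW C K) {d : Fin n → ℤ} {t : LL C K ≃ₗ[K] LL C K} (ht : t ∈ TT C K) :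
    gr H d ⟨t, TT_le_Par H d ht⟩ = t := by
  apply Fil_gr_fix_basis H ⟨t, TT_le_Par H d ht⟩
  · intro h
    show t (hh C h) ∈ Grd C K d 0
    rw [ht.2 _ (hh_mem_L0 h)]
    exact Fil_hh_grd d h
  · intro a
    show t (e K a) ∈ Grd C K d (ip C d a.1)
    rw [TT_e H ht]
    exact Submodule.smul_mem _ _ (Fil_e_grd d a)

/-- the action of a root element on root vectors, modulo the filtration -/
theorem Fil_xr_sub_e (H : HypW C K) (d : Fin n → ℤ) (a : Rt C) (s : K) (h : 0 ≤ ip C d a.1)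
    (b : Rt C) : xr a s (e K b) - e K b ∈ Fil C K d (ip C d b.1 + ip C d a.1) := by
  rcases ip_cases H a b with hb | hb | hb | hb | hb
  · subst hb
    rw [xr_e_ng H]
    have h1 : e K (ng a) - s • hh C (zk a.1) + (s ^ 2) • e K a - e K (ng a) =
        -(s • hh C (zk a.1)) + (s ^ 2) • e K a := by abel
    have h2 : ip C d (ng a).1 = -ip C d a.1 := by
      rw [ng_val, ip_neg_right]
    rw [h1, h2]
    refine add_mem (neg_mem (Submodule.smul_mem _ _ (Fil_hh_fil d _ (by omega))))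
      (Submodule.smul_mem _ _ (Fil_e_fil d a (by omega)))
  · have hc := root_add H hb
    rw [xr_e_add H a s (c := ⟨a.1 + b.1, hc⟩) rfl, add_sub_cancel_left]
    apply Submodule.smul_mem
    apply Fil_e_fil
    show _ ≤ ip C d (a.1 + b.1)
    rw [ip_add_right]
    omega
  · rw [xr_e_nonneg H a s (by omega), sub_self]
    exact zero_mem _
  · rw [xr_e_nonneg H a s (by omega), sub_self]
    exact zero_mem _
  · subst hb
    rw [xr_e_nonneg H b s (by rw [b.2]; norm_num), sub_self]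
    exact zero_mem _

theorem Fil_xr_sub_hh (H : HypW C K) (d : Fin n → ℤ) (a : Rt C) (s : K) (h : Fin n → K) :
    xr a s (hh C h) - hh C h ∈ Fil C K d (ip C d a.1) := by
  rw [xr_hh H]
  have h1 : hh C h - (s * fk C h (zk a.1)) • e K a - hh C h =
      -((s * fk C h (zk a.1)) • e K a) := by abel
  rw [h1]
  exact neg_mem (Submodule.smul_mem _ _ (Fil_e_fil d a le_rfl))

theorem xr_mem_Par (H : HypW C K) (d : Fin n → ℤ) (a : Rt C) (s : K) (h : 0 ≤ ip C d a.1) :
    xr a s ∈ Par C K d := by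
  apply mem_Par_of_root H (xr_mem_GG H a s)
  intro b
  have h1 := Fil_xr_sub_e H d a s h b
  have h2 : xr a s (e K b) = (xr a s (e K b) - e K b) + e K b := by abel
  rw [h2]
  exact add_mem (Fil_anti (by omega) h1) (Fil_e_fil d b le_rfl)

theorem gr_xr_zero (H : HypW C K) (d : Fin n → ℤ) (a : Rt C) (s : K) (h : ip C d a.1 = 0) :
    gr H d ⟨xr a s, xr_mem_Par H d a s h.ge⟩ = xr a s := by
  apply Fil_gr_fix_basis H ⟨xr a s, xr_mem_Par H d a s h.ge⟩
  · intro k
    show xr a s (hh C k) ∈ Grd C K d 0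
    rw [xr_hh H]
    refine sub_mem (Fil_hh_grd d k) (Submodule.smul_mem _ _ ?_)
    rw [← h]
    exact Fil_e_grd d a
  · intro b
    show xr a s (e K b) ∈ Grd C K d (ip C d b.1)
    rcases ip_cases H a b with hb | hb | hb | hb | hb
    · subst hb
      rw [xr_e_ng H]
      have h2 : ip C d (ng a).1 = 0 := by
        rw [ng_val, ip_neg_right, h, neg_zero]
      have h3 := Fil_e_grd (K := K) d (ng a)
      have h4 := Fil_e_grd (K := K) d a
      rw [h2] at h3 ⊢
      rw [h] at h4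
      exact add_mem (sub_mem h3 (Submodule.smul_mem _ _ (Fil_hh_grd d _)))
        (Submodule.smul_mem _ _ h4)
    · have hc := root_add H hb
      rw [xr_e_add H a s (c := ⟨a.1 + b.1, hc⟩) rfl]
      refine add_mem (Fil_e_grd d b) (Submodule.smul_mem _ _ ?_)
      have h2 : ip C d b.1 = ip C d (⟨a.1 + b.1, hc⟩ : Rt C).1 := by
        show _ = ip C d (a.1 + b.1)
        rw [ip_add_right, h, zero_add]
      rw [h2]
      exact Fil_e_grd d _
    · rw [xr_e_nonneg H a s (by omega)]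
      exact Fil_e_grd d b
    · rw [xr_e_nonneg H a s (by omega)]
      exact Fil_e_grd d b
    · subst hb
      rw [xr_e_nonneg H b s (by rw [b.2]; norm_num)]
      exact Fil_e_grd d b

theorem gr_xr_pos (H : HypW C K) (d : Fin n → ℤ) (a : Rt C) (s : K) (h : 0 < ip C d a.1) :
    gr H d ⟨xr a s, xr_mem_Par H d a s h.le⟩ = 1 := by
  apply Fil_gr_unique H ⟨xr a s, xr_mem_Par H d a s h.le⟩
  · intro k
    exact Fil_hh_grd d k
  · intro b
    exact Fil_e_grd d b
  · intro k
    exact Fil_anti (by omega) (Fil_xr_sub_hh H d a s k)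
  · intro b
    exact Fil_anti (by omega) (Fil_xr_sub_e H d a s h.le b)

/-- an element of `NN` in `Par d` preserves the grading -/
theorem gr_NN (H : HypW C K) {d : Fin n → ℤ} (g : Par C K d)
    (hg : (g : LL C K ≃ₗ[K] LL C K) ∈ NN C K) : gr H d g = g := by
  obtain ⟨w, k, hk, hw, -, -, -⟩ := NN_perm H hg
  have h1 : ∀ a, ip C d a.1 ≤ ip C d (w a).1 := by
    intro a
    by_contra hlt
    push Not at hlt
    have h2 : (g : LL C K ≃ₗ[K] LL C K) (e K a) ∈ Fil C K d (ip C d a.1) :=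
      (g.2.2 _ _).2 (Fil_e_fil d a le_rfl)
    rw [hw] at h2
    have h3 := h2.1 (w a) hlt
    have h4 : k a * (e K (w a)).2 (w a) = 0 := h3
    rw [e_snd_self, mul_one] at h4
    exact hk a h4
  have h2 : ∀ a, ip C d a.1 = ip C d (w a).1 := by
    have h3 : ∑ a : Rt C, ip C d a.1 = ∑ a : Rt C, ip C d (w a).1 :=
      (Equiv.sum_comp w fun a : Rt C => ip C d a.1).symm
    intro a
    exact (Finset.sum_eq_sum_iff_of_le fun i _ => h1 i).1 h3 a (Finset.mem_univ a)
  apply Fil_gr_fix_basis H g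
  · intro h
    have h3 : (g : LL C K ≃ₗ[K] LL C K) (hh C h) ∈ L0 C K := (hg.2 _).2 (hh_mem_L0 h)
    rw [eq_hh_of_mem h3]
    exact Fil_hh_grd d _
  · intro a
    rw [hw, h2]
    exact Submodule.smul_mem _ _ (Fil_e_grd d _)

omit [Fintype (Rt C)] in
theorem Fil_hd_grd {d : Fin n → ℤ} {k : ℤ} {x : LL C K} (hx : x ∈ Grd C K d k) (c : Kˣ) :
    hd C d c x = ((c ^ k : Kˣ) : K) • x := by
  refine Prod.ext ?_ (funext fun b => ?_)
  · show x.1 = ((c ^ k : Kˣ) : K) • x.1
    by_cases hk : k = 0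
    · rw [hk, zpow_zero, Units.val_one, one_smul]
    · rw [hx.2 hk, smul_zero]
  · show ((c ^ (ip C d b.1) : Kˣ) : K) * x.2 b = ((c ^ k : Kˣ) : K) * x.2 b
    by_cases hb : ip C d b.1 = k
    · rw [hb]
    · rw [hx.1 b hb, mul_zero, mul_zero]

/-- `h_d(c)` commutes with every automorphism preserving the grading -/
theorem gr_comm_hd (H : HypW C K) {d : Fin n → ℤ} (g : Par C K d) (c : Kˣ) :
    gr H d g * hd C d c = hd C d c * gr H d g := by
  have key : (((gr H d g * hd C d c : LL C K ≃ₗ[K] LL C K)) : LL C K →ₗ[K] LL C K) =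
      ((hd C d c * gr H d g : LL C K ≃ₗ[K] LL C K) : LL C K →ₗ[K] LL C K) := by
    apply ext_basis
    · intro h
      show gr H d g (hd C d c (hh C h)) = hd C d c (gr H d g (hh C h))
      rw [Fil_hd_grd (Fil_hh_grd d h), Fil_hd_grd (gr_grd H g (Fil_hh_grd d h)), map_smul]
    · intro a
      show gr H d g (hd C d c (e K a)) = hd C d c (gr H d g (e K a))
      rw [Fil_hd_grd (Fil_e_grd d a), Fil_hd_grd (gr_grd H g (Fil_e_grd d a)), map_smul]
  exact LinearEquiv.ext fun x => LinearMap.congr_fun key x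

/-- the kernel of `gr`, as a subgroup of the ambient group -/
noncomputable def Rad (H : HypW C K) (d : Fin n → ℤ) : Subgroup (LL C K ≃ₗ[K] LL C K) :=
  (gr H d).ker.map (Par C K d).subtype

theorem mem_Rad (H : HypW C K) {d : Fin n → ℤ} (g : Par C K d) :
    (g : LL C K ≃ₗ[K] LL C K) ∈ Rad H d ↔ gr H d g = 1 := by
  constructor
  · rintro ⟨x, hx, hxg⟩
    have h1 : x = g := Subtype.ext hxg
    rw [← h1]
    exact hx
  · intro h
    exact ⟨g, h, rfl⟩

theorem Rad_le (H : HypW C K) (d : Fin n → ℤ) : Rad H d ≤ Par C K d := by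
  rintro _ ⟨x, -, rfl⟩
  exact x.2

theorem Rad_pgroup (H : HypW C K) {p : ℕ} [Fact p.Prime] [CharP K p] (d : Fin n → ℤ) :
    IsPGroup p (Rad H d) := by
  rintro ⟨u, hu⟩
  obtain ⟨g, hg, rfl⟩ := hu
  have hg' : gr H d g = 1 := hg
  let u : Module.End K (LL C K) := ((g : LL C K ≃ₗ[K] LL C K) : LL C K →ₗ[K] LL C K)
  have hstep : ∀ (k : ℤ) (x : LL C K), x ∈ Fil C K d k → (u - 1) x ∈ Fil C K d (k + 1) := by
    apply Fil_raise (u - 1) 1
    · intro h
      have h1 := Fil_gr_spec H g (Fil_hh_grd (K := K) d h)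
      rw [hg'] at h1
      exact h1
    · intro a
      have h1 := Fil_gr_spec H g (Fil_e_grd (K := K) d a)
      rw [hg'] at h1
      exact h1
  have hpow : ∀ (N : ℕ) (k : ℤ) (x : LL C K), x ∈ Fil C K d k →
      ((u - 1) ^ N) x ∈ Fil C K d (k + N) := by
    intro N
    induction N with
    | zero =>
      intro k x hx
      rw [pow_zero, Nat.cast_zero, add_zero]
      exact hx
    | succ N ih =>
      intro k x hx
      rw [pow_succ']
      show (u - 1) (((u - 1) ^ N) x) ∈ _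
      have h1 := hstep _ _ (ih k x hx)
      rw [Nat.cast_succ, ← add_assoc]
      exact h1
  obtain ⟨M, hM⟩ : ∃ M : ℕ, ∀ a : Rt C, |ip C d a.1| < (M : ℤ) := by
    refine ⟨(∑ a : Rt C, (ip C d a.1).natAbs) + 1, fun a => ?_⟩
    have h1 : (ip C d a.1).natAbs ≤ ∑ a : Rt C, (ip C d a.1).natAbs :=
      Finset.single_le_sum (f := fun a : Rt C => (ip C d a.1).natAbs)
        (fun _ _ => Nat.zero_le _) (Finset.mem_univ a)
    rw [Int.abs_eq_natAbs]
    exact_mod_cast Nat.lt_succ_of_le h1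
  have hnil : ∀ N : ℕ, 2 * M + 1 ≤ N → (u - 1) ^ N = 0 := by
    intro N hN
    apply LinearMap.ext
    intro x
    have h1 : x ∈ Fil C K d (-(M : ℤ)) := by
      refine ⟨fun b hb => ?_, fun hk => by omega⟩
      have h2 := hM b
      rw [abs_lt] at h2
      omega
    have h2 := hpow N _ x h1
    refine Prod.ext (h2.2 (by omega)) (funext fun b => h2.1 b ?_)
    have h3 := hM b
    rw [abs_lt] at h3
    omega
  have hp1 : 1 < p := (Fact.out : p.Prime).one_lt
  obtain ⟨k, hk⟩ : ∃ k : ℕ, 2 * M + 1 ≤ p ^ k :=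
    ⟨2 * M + 1, (Nat.lt_pow_self hp1).le⟩
  refine ⟨k, ?_⟩
  apply Subtype.ext
  show ((g : LL C K ≃ₗ[K] LL C K)) ^ p ^ k = 1
  by_cases hnt : Nontrivial (LL C K)
  · haveI : CharP (Module.End K (LL C K)) p :=
      charP_of_injective_algebraMap (FaithfulSMul.algebraMap_injective K _) p
    have h1 : (u - 1) ^ p ^ k = u ^ p ^ k - 1 ^ p ^ k :=
      sub_pow_char_pow_of_commute _ _ (Commute.one_right u)
    rw [hnil _ hk, one_pow] at h1
    have h2 : u ^ p ^ k = 1 := (sub_eq_zero.1 h1.symm)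
    apply LinearEquiv.ext
    intro x
    have h3 : ∀ m : ℕ, ((g : LL C K ≃ₗ[K] LL C K) ^ m) x = (u ^ m) x := by
      intro m
      induction m with
      | zero => rfl
      | succ m ih =>
        rw [pow_succ', pow_succ']
        show (g : LL C K ≃ₗ[K] LL C K) (((g : LL C K ≃ₗ[K] LL C K) ^ m) x) = u ((u ^ m) x)
        rw [ih]
        rfl
    rw [h3, h2]
    rfl
  · rw [not_nontrivial_iff_subsingleton] at hnt
    apply LinearEquiv.ext
    intro x
    exact Subsingleton.elim _ _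

theorem Rad_normal (H : HypW C K) {d : Fin n → ℤ} {g u : LL C K ≃ₗ[K] LL C K}
    (hg : g ∈ Par C K d) (hu : u ∈ Rad H d) : g * u * g⁻¹ ∈ Rad H d := by
  obtain ⟨v, hv, rfl⟩ := hu
  have hv' : gr H d v = 1 := hv
  refine ⟨⟨g, hg⟩ * v * ⟨g, hg⟩⁻¹, ?_, rfl⟩
  show gr H d (⟨g, hg⟩ * v * ⟨g, hg⟩⁻¹) = 1
  rw [map_mul, map_mul, hv', mul_one, map_inv, mul_inv_cancel]

/-! ### the intrinsic filtration -/

theorem Fil_zk_ne (H : HypW C K) (a : Rt C) : (zk a.1 : Fin n → K) ≠ 0 := by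
  intro h
  have h1 : fk C (zk a.1 : Fin n → K) (zk a.1) = 0 := by
    rw [h, fk_zero_left]
  rw [fk_zk_zk, a.2] at h1
  exact two_ne H (by exact_mod_cast h1)

theorem Fil_mem_zero (H : HypW C K) (a : Rt C) (x : LL C K) :
    x ∈ Fil C K a.1 0 ↔ ∃ c : K, br (e K a) x = c • e K a := by
  constructor
  · intro hx
    refine ⟨-fk C x.1 (zk a.1), ?_⟩
    refine Prod.ext ?_ (funext fun r => ?_)
    · rw [br_e_fst H]
      have h1 : x.2 (ng a) = 0 := hx.1 (ng a) (by
        rw [ng_val, ip_neg_right, a.2]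
        norm_num)
      rw [h1, neg_zero, zero_smul]
      show (0 : Fin n → K) = (-fk C x.1 (zk a.1)) • (0 : Fin n → K)
      rw [smul_zero]
    · show (br (e K a) x).2 r = -fk C x.1 (zk a.1) * (e K a).2 r
      by_cases hra : r = a
      · rw [hra, br_e_snd_self H, e_snd_self, mul_one]
      · rw [e_snd_ne hra, mul_zero]
        by_cases hr : ip C r.1 a.1 = 1
        · have hd := root_sub H hr
          rw [br_e_snd H a x r hr ⟨r.1 - a.1, hd⟩ rfl]
          have h1 : x.2 ⟨r.1 - a.1, hd⟩ = 0 := hx.1 _ (by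
            show ip C a.1 (r.1 - a.1) < 0
            rw [ip_sub_right, ip_comm H.symm a.1 r.1, hr, a.2]
            norm_num)
          rw [h1, mul_zero]
        · exact br_e_snd_zero H a x r hr hra
  · rintro ⟨c, hc⟩
    refine ⟨fun b hb => ?_, fun h => absurd h (lt_irrefl 0)⟩
    rcases ip_cases H a b with h | h | h | h | h
    · subst h
      have h1 : (br (e K a) x).1 = 0 := by
        rw [hc]
        show c • (0 : Fin n → K) = 0
        rw [smul_zero]
      rw [br_e_fst H] at h1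
      rcases smul_eq_zero.1 h1 with h2 | h2
      · exact neg_eq_zero.1 h2
      · exact absurd h2 (Fil_zk_ne H a)
    · have hr := root_add H h
      have h0 : ip C (⟨a.1 + b.1, hr⟩ : Rt C).1 a.1 = 1 := by
        show ip C (a.1 + b.1) a.1 = 1
        rw [ip_add_left, ip_comm H.symm b.1 a.1, h, a.2]
        norm_num
      have h1 := br_e_snd H a x ⟨a.1 + b.1, hr⟩ h0 b (by
        show b.1 = a.1 + b.1 - a.1
        abel)
      rw [hc] at h1
      have h2 : (c • e K a).2 (⟨a.1 + b.1, hr⟩ : Rt C) = 0 := by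
        show c * (e K a).2 _ = 0
        rw [e_snd_ne, mul_zero]
        intro h3
        rw [h3, a.2] at h0
        omega
      rw [h2] at h1
      rcases mul_eq_zero.1 h1.symm with h3 | h3
      · exact absurd h3 (ek_ne_zero _ _)
      · exact h3
    · omega
    · omega
    · rw [h, a.2] at hb
      omega

theorem Fil_mem_neg_one (H : HypW C K) (a : Rt C) (x : LL C K) :
    x ∈ Fil C K a.1 (-1) ↔ fm (e K a) x = 0 := by
  rw [fm_e_left, neg_eq_zero]
  constructor
  · intro hx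
    exact hx.1 (ng a) (by
      rw [ng_val, ip_neg_right, a.2]
      norm_num)
  · intro hx
    refine ⟨fun b hb => ?_, fun h => by omega⟩
    rcases ip_cases H a b with h | h | h | h | h
    · rw [h]
      exact hx
    · omega
    · omega
    · omega
    · rw [h, a.2] at hb
      omega

theorem Fil_mem_le (H : HypW C K) (a : Rt C) {i : ℤ} (hi : i ≤ -2) (x : LL C K) :
    x ∈ Fil C K a.1 i := by
  refine ⟨fun b hb => ?_, fun h => by omega⟩
  have h1 := neg_two_le_ip H a b
  omega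

end Pool.Agent.H31.F4
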