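import Pool.Agent.H31.F4.B.Ip

/-!
# EL-02: signs and forms over `K`

`ek K C x y` is the image of `eps C x y` in `K`; `fk` is bilinear;
`fk (zk x) (zk y) = (ip x y : K)`.  `fk_nondeg`: the simple roots `Pi.single i 1` are roots
(`ip_simple`), `fk C h (zk (Pi.single i 1)) = ∑ j, C j i h j = ∑ j, C i j h j`, `H.nd`.
`zk_span`: `h = ∑ h i • zk (Pi.single i 1)`.
-/

namespace Pool.Agent.H31.F4

open Pool.Agent.H33.EL (ip cc eps Rt ng zk ek fk LL hh e brf fmf br fm IsExt exl ex xr hd L0 GG T1 TT NN SF cj wt)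

variable {n : ℕ} {C : Matrix (Fin n) (Fin n) ℤ} {K : Type} [Field K] [Fintype (Rt C)]

theorem ek_mul_self (x y : Fin n → ℤ) : ek K C x y * ek K C x y = 1 := by
  unfold ek
  rw [← Int.cast_mul, ← Units.val_mul, eps_mul_self, Units.val_one, Int.cast_one]
theorem ek_ne_zero (x y : Fin n → ℤ) : ek K C x y ≠ 0 := by
  intro h
  have h1 := ek_mul_self (K := K) (C := C) x y
  rw [h, zero_mul] at h1
  exact zero_ne_one h1
theorem ek_add_left (x y z : Fin n → ℤ) : ek K C (x + y) z = ek K C x z * ek K C y z := by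
  have h := congrArg (fun u : ℤˣ => (((u : ℤˣ) : ℤ) : K)) (eps_add_left (C := C) x y z)
  simpa [ek] using h
theorem ek_add_right (x y z : Fin n → ℤ) : ek K C x (y + z) = ek K C x y * ek K C x z := by
  have h := congrArg (fun u : ℤˣ => (((u : ℤˣ) : ℤ) : K)) (eps_add_right (C := C) x y z)
  simpa [ek] using h
theorem ek_neg_left (x y : Fin n → ℤ) : ek K C (-x) y = ek K C x y := by
  unfold ek
  rw [eps_neg_left]
theorem ek_neg_right (x y : Fin n → ℤ) : ek K C x (-y) = ek K C x y := by
  unfold ek
  rw [eps_neg_right]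
theorem ek_self (H : HypW C K) (a : Rt C) : ek K C a.1 a.1 = -1 := by
  unfold ek
  rw [eps_self H.symm H.diag]
  simp
theorem ek_comm_even (H : HypW C K) (x y : Fin n → ℤ) (h : Even (ip C x y)) :
    ek K C x y = ek K C y x := by
  have h1 := eps_comm H.symm H.diag x y
  rw [Even.neg_one_zpow h] at h1
  have h2 : ek K C x y * ek K C y x = 1 := by
    have h3 := congrArg (fun u : ℤˣ => (((u : ℤˣ) : ℤ) : K)) h1
    simpa [ek] using h3
  calc ek K C x y = ek K C x y * (ek K C y x * ek K C y x) := by rw [ek_mul_self, mul_one]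
    _ = (ek K C x y * ek K C y x) * ek K C y x := by ring
    _ = ek K C y x := by rw [h2, one_mul]
theorem ek_comm_odd (H : HypW C K) (x y : Fin n → ℤ) (h : Odd (ip C x y)) :
    ek K C x y = -ek K C y x := by
  have h1 := eps_comm H.symm H.diag x y
  rw [Odd.neg_one_zpow h] at h1
  have h2 : ek K C x y * ek K C y x = -1 := by
    have h3 := congrArg (fun u : ℤˣ => (((u : ℤˣ) : ℤ) : K)) h1
    simpa [ek] using h3
  calc ek K C x y = ek K C x y * (ek K C y x * ek K C y x) := by rw [ek_mul_self, mul_one]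
    _ = (ek K C x y * ek K C y x) * ek K C y x := by ring
    _ = -ek K C y x := by rw [h2, neg_one_mul]

theorem fk_add_left (h k l : Fin n → K) : fk C (h + k) l = fk C h l + fk C k l := by
  simp only [fk, Pi.add_apply, add_mul, Finset.sum_add_distrib]
theorem fk_add_right (h k l : Fin n → K) : fk C h (k + l) = fk C h k + fk C h l := by
  simp only [fk, Pi.add_apply, mul_add, Finset.sum_add_distrib]
theorem fk_smul_left (c : K) (h k : Fin n → K) : fk C (c • h) k = c * fk C h k := by
  simp only [fk, Pi.smul_apply, smul_eq_mul, mul_assoc, ← Finset.mul_sum]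
theorem fk_smul_right (c : K) (h k : Fin n → K) : fk C h (c • k) = c * fk C h k := by
  simp only [fk, Pi.smul_apply, smul_eq_mul, mul_left_comm _ c, ← Finset.mul_sum]
theorem fk_neg_left (h k : Fin n → K) : fk C (-h) k = -fk C h k := by
  rw [← neg_one_smul K h, fk_smul_left, neg_one_mul]
theorem fk_neg_right (h k : Fin n → K) : fk C h (-k) = -fk C h k := by
  rw [← neg_one_smul K k, fk_smul_right, neg_one_mul]
theorem fk_zero_left (h : Fin n → K) : fk C 0 h = 0 := by
  simp [fk]
theorem fk_zero_right (h : Fin n → K) : fk C h 0 = 0 := by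
  simp [fk]
theorem fk_sub_left (h k l : Fin n → K) : fk C (h - k) l = fk C h l - fk C k l := by
  rw [sub_eq_add_neg, fk_add_left, fk_neg_left, sub_eq_add_neg]
theorem fk_comm (H : HypW C K) (h k : Fin n → K) : fk C h k = fk C k h := by
  unfold fk
  rw [Finset.sum_comm]
  refine Finset.sum_congr rfl fun i _ => Finset.sum_congr rfl fun j _ => ?_
  rw [H.symm j i]
  ring
theorem fk_zk_zk (x y : Fin n → ℤ) :
    fk C (zk x : Fin n → K) (zk y) = ((ip C x y : ℤ) : K) := by
  simp only [fk, zk, ip, Int.cast_sum, Int.cast_mul]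
theorem zk_add (x y : Fin n → ℤ) : (zk (x + y) : Fin n → K) = zk x + zk y := by
  funext i
  simp [zk]
theorem zk_neg (x : Fin n → ℤ) : (zk (-x) : Fin n → K) = -zk x := by
  funext i
  simp [zk]
theorem zk_sub (x y : Fin n → ℤ) : (zk (x - y) : Fin n → K) = zk x - zk y := by
  funext i
  simp [zk]
/-- every toral vector is a combination of roots -/
theorem zk_span (H : HypW C K) (h : Fin n → K) :
    h ∈ Submodule.span K {k : Fin n → K | ∃ a : Rt C, k = zk a.1} := by
  have h1 : h = ∑ i, h i • (zk (Pi.single i 1) : Fin n → K) := by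
    funext j
    rw [Finset.sum_apply, Finset.sum_eq_single j]
    · simp [zk]
    · intro k _ hk
      simp [zk, Pi.single_eq_of_ne hk.symm]
    · intro hi
      exact absurd (Finset.mem_univ j) hi
  rw [h1]
  refine Submodule.sum_mem _ fun i _ => Submodule.smul_mem _ _ (Submodule.subset_span ?_)
  exact ⟨⟨Pi.single i 1, ip_simple H i⟩, rfl⟩

end Pool.Agent.H31.F4
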