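import Pool.Agent.H31.F4.B.BrB

/-!
# EL-04: the Jacobi identity

By trilinearity (`ext_basis` three times; the two sides are trilinear maps, or use `decomp`)
it is enough to check basis vectors.  It is convenient to prove first `br_skew`.
* with an `hh h` among the three: `fk C h (zk (a+b)) = fk C h (zk a) + fk C h (zk b)`, and for
  `[h,[e_a,e_(-a)]] = 0`.
* `e_a, e_b, e_c`: we need `[e_a,[e_b,e_c]] = [[e_a,e_b],e_c] + [e_b,[e_a,e_c]]`.
  By skew symmetry the Jacobi expression is alternating in the three arguments, so if two of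
  the roots coincide it is trivial (`ad e_a` twice: `[e_a,[e_a,e_c]]` on both sides).
  If two are opposite, say `b = -a`:  `[[e_a,e_(-a)],e_c] = -(a,c) e_c`, and
  `[e_a,[e_(-a),e_c]] - [e_(-a),[e_a,e_c]]`: for `(a,c)=1` the first term is
  `ε(-a,c) ε(a,c-a) e_c = ε(a,a) e_c = -e_c`, second zero; for `(a,c) = -1` it is the negative
  (`ε(a,c) ε(-a,a+c) = ε(a,a) = -1`); for `(a,c) = 0` both zero; `c = ±a`: direct.
  If no two are equal or opposite, all products lie in `{-1,0,1}`.  The total `s = a+b+c`.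
  Norm of `s` is `6 + 2((a,b)+(a,c)+(b,c))`.  Terms can be non zero only if some sum of two is
  a root and adding the third gives a root or zero.
  - `s = 0`: `(a,b)=(b,c)=(a,c)=-1`, the identity says
    `-ε(b,c) h_a = -ε(a,b) h_(a+b)·... ` i.e. with `c = -a-b`: `[e_a,[e_b,e_c]]=
    ε(b,c)[e_a,e_(-a)] = -ε(b,c) h_a`, `[[e_a,e_b],e_c] = ε(a,b)[e_(-c),e_c] = ε(a,b) h_c`
    (as `[e_(-c),e_c] = -h_(-c) = h_c`), `[e_b,[e_a,e_c]] = ε(a,c)[e_b,e_(-b)] = -ε(a,c) h_b`;
    here `ε(b,c) = ε(b,-a-b) = ε(b,a)ε(b,b) = -ε(b,a) = ε(a,b)` (odd product),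
    `ε(a,c) = ε(a,a) ε(a,b) = -ε(a,b)`; so the identity is
    `-ε(a,b) h_a = ε(a,b) h_c + ε(a,b) h_b`, true as `h_c = -h_a-h_b`.
  - `s` a root (norm 2, sum of products `-2`): exactly two of the products are `-1` and one is
    `0`; (three products in `{-1,0,1}` with sum `-2`).  In each of the three cases
    one of the three terms vanishes and the other two agree up to the sign computed from
    bimultiplicativity: e.g. `(b,c) = 0`: `0 = ε(a,b)ε(a+b,c) + ε(a,c)ε(b,a+c)`, since
    `ε(a,b) ε(a,c) ε(b,c) = - ε(a,c) ε(b,a) ε(b,c)`.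
  - otherwise all terms are zero (if e.g. `(b,c)=-1` and `(a,b+c)=-1` then `s` is a root;
    so `[e_a,[e_b,e_c]]` is non zero only if `s` is a root or zero).
A convenient way: use the coordinate formulas, or treat the `3^3` sign cases of
`(ip a b, ip a c, ip b c)` by `ip_cases` and the lemmas `br_e_e_add`, `br_e_e_zero`.
-/

namespace Pool.Agent.H31.F4

open Pool.Agent.H33.EL (ip cc eps Rt ng zk ek fk LL hh e brf fmf br fm IsExt exl ex xr hd L0 GG T1 TT NN SF cj wt)

variable {n : ℕ} {C : Matrix (Fin n) (Fin n) ℤ} {K : Type} [Field K] [Fintype (Rt C)]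

/-- the sum of two roots with product `-1` -/
def Jac_add (H : HypW C K) {a b : Rt C} (h : ip C a.1 b.1 = -1) : Rt C :=
  ⟨a.1 + b.1, root_add H h⟩

theorem Jac_br_add (H : HypW C K) {a b : Rt C} (h : ip C a.1 b.1 = -1) :
    br (e K a) (e K b) = ek K C a.1 b.1 • e K (Jac_add H h) := br_e_e_add H rfl

theorem Jac_ip_self (a : Rt C) : ip C a.1 a.1 = 2 := a.2

theorem br_skew (H : HypW C K) (x y : LL C K) : br x y = -br y x := by
  have h0 : (br : LL C K →ₗ[K] LL C K →ₗ[K] LL C K) = -br.flip := by
    apply ext_basis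
    · intro h
      apply ext_basis
      · intro k
        rw [LinearMap.neg_apply, LinearMap.neg_apply, LinearMap.flip_apply, br_hh_hh, br_hh_hh,
          neg_zero]
      · intro a
        rw [LinearMap.neg_apply, LinearMap.neg_apply, LinearMap.flip_apply, br_hh_e, br_e_hh,
          neg_smul, neg_neg]
    · intro a
      apply ext_basis
      · intro k
        rw [LinearMap.neg_apply, LinearMap.neg_apply, LinearMap.flip_apply, br_hh_e, br_e_hh,
          neg_smul]
      · intro b
        rw [LinearMap.neg_apply, LinearMap.neg_apply, LinearMap.flip_apply]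
        have hc : ip C b.1 a.1 = ip C a.1 b.1 := ip_comm H.symm _ _
        rcases ip_cases H a b with h | h | h | h | h
        · subst h
          have h2 : br (e K (ng a)) (e K a) = -hh C (zk (ng a).1) := by
            conv_lhs => rw [← ng_ng a]
            rw [ng_ng (ng a)]
            conv_lhs => rw [ng_ng a]
            have := br_e_ng (K := K) H (ng a)
            rw [ng_ng] at this
            exact this
          rw [br_e_ng H, h2, ng_val, zk_neg, hh_neg, neg_neg]
        · have h' : ip C b.1 a.1 = -1 := by rw [hc, h]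
          have e1 : (Jac_add H h).1 = b.1 + a.1 := by
            show a.1 + b.1 = b.1 + a.1
            rw [add_comm]
          rw [Jac_br_add H h, br_e_e_add H e1, ek_comm_odd H a.1 b.1 (by rw [h]; decide),
            neg_smul]
        · rw [br_e_e_zero H (by rw [h]), br_e_e_zero H (by rw [hc, h]), neg_zero]
        · rw [br_e_e_zero H (by rw [h]; norm_num), br_e_e_zero H (by rw [hc, h]; norm_num),
            neg_zero]
        · subst h
          rw [br_e_e_zero H (by rw [Jac_ip_self]; norm_num), neg_zero]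
  have h1 := congrArg (fun f : LL C K →ₗ[K] LL C K →ₗ[K] LL C K => f x y) h0
  exact h1

theorem Jac_two (H : HypW C K) : (2 : K) ≠ 0 := by
  intro h2
  have hc := H.card
  have h1 : (Nat.card K : K) = 0 := by
    have := card_nsmul_eq_zero' (G := K) (x := 1)
    rwa [nsmul_eq_mul, mul_one] at this
  have key : ∀ m : ℕ, ((2 * m + 1 : ℕ) : K) = 0 → False := by
    intro m hm
    push_cast at hm
    rw [h2, zero_mul, zero_add] at hm
    exact one_ne_zero hm
  rcases hc with h | h | h
  · rw [h] at h1
    exact key 3 h1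
  · rw [h] at h1
    exact key 4 h1
  · rw [h] at h1
    exact key 5 h1

theorem br_self (H : HypW C K) (x : LL C K) : br x x = 0 := by
  have h := br_skew H x x
  have h1 : (2 : K) • br x x = 0 := by
    rw [two_smul]
    nth_rewrite 1 [h]
    rw [neg_add_cancel]
  exact (smul_eq_zero.1 h1).resolve_left (Jac_two H)

/-- the Jacobi identity for three vectors -/
def JJ (x y z : LL C K) : Prop := br x (br y z) = br (br x y) z + br y (br x z)

theorem JJ_swap (H : HypW C K) {x y z : LL C K} (h : JJ x y z) : JJ y x z := by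
  unfold JJ at h ⊢
  rw [h, br_skew H y x, map_neg, LinearMap.neg_apply]
  abel

theorem JJ_swap' (H : HypW C K) {x y z : LL C K} (h : JJ x y z) : JJ x z y := by
  unfold JJ at h ⊢
  rw [br_skew H z y, map_neg, h, br_skew H z (br x y), br_skew H (br x z) y]
  abel

theorem JJ_ext {y z : LL C K} (h1 : ∀ h, JJ (hh C h) y z) (h2 : ∀ a, JJ (e K a) y z)
    (x : LL C K) : JJ x y z := by
  have h0 : br.flip (br y z) = (br.flip z).comp (br.flip y) + (br y).comp (br.flip z) :=
    ext_basis h1 h2
  exact congrArg (fun f : LL C K →ₗ[K] LL C K => f x) h0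

theorem JJ_hh (H : HypW C K) (h : Fin n → K) (y z : LL C K) : JJ (hh C h) y z := by
  refine JJ_swap H (JJ_ext (y := hh C h) (z := z) ?_ ?_ y)
  · intro k
    refine JJ_swap H (JJ_swap' H (JJ_swap H (JJ_ext (y := hh C h) (z := hh C k) ?_ ?_ z)))
    · intro l
      unfold JJ
      simp only [br_hh_hh, map_zero, LinearMap.zero_apply, add_zero]
    · intro a
      apply JJ_swap' H
      apply JJ_swap H
      apply JJ_swap' H
      unfold JJ
      simp only [br_hh_hh, br_hh_e, map_smul, map_zero, LinearMap.zero_apply, zero_add]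
      rw [smul_comm]
  · intro a
    refine JJ_swap H (JJ_swap' H (JJ_swap H (JJ_ext (y := hh C h) (z := e K a) ?_ ?_ z)))
    · intro k
      unfold JJ
      simp only [br_hh_hh, br_hh_e, map_smul, map_zero, LinearMap.zero_apply, zero_add]
      rw [smul_comm]
    · intro b
      apply JJ_swap H
      unfold JJ
      rw [br_hh_e, br_hh_e, map_smul, map_smul, LinearMap.smul_apply, ← add_smul]
      have hc : ip C a.1 b.1 = ip C b.1 a.1 := ip_comm H.symm _ _
      rcases ip_cases H b a with h1 | h1 | h1 | h1 | h1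
      · subst h1
        rw [br_e_ng H, map_neg, br_hh_hh, ng_val, zk_neg, fk_neg_right]
        simp
      · rw [Jac_br_add H h1, map_smul, br_hh_e]
        show _ • fk C h (zk (b.1 + a.1)) • _ = _
        rw [zk_add, fk_add_right, smul_comm]
      · rw [br_e_e_zero H (by rw [h1]), map_zero, smul_zero]
      · rw [br_e_e_zero H (by rw [h1]; norm_num), map_zero, smul_zero]
      · subst h1
        rw [br_e_e_zero H (by rw [Jac_ip_self]; norm_num), map_zero, smul_zero]

theorem JJ_self (H : HypW C K) (x z : LL C K) : JJ x x z := by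
  unfold JJ
  rw [br_self H, map_zero, LinearMap.zero_apply, zero_add]

theorem JJ_self' (H : HypW C K) (x z : LL C K) : JJ z x x :=
  JJ_swap H (JJ_swap' H (JJ_self H x z))

theorem Jac_ek_sq (x y : Fin n → ℤ) (v : LL C K) :
    ek K C x y • ek K C x y • v = v := by
  rw [smul_smul, ek_mul_self, one_smul]

/-- opposite roots -/
theorem JJ_opp_neg (H : HypW C K) {a c : Rt C} (h : ip C a.1 c.1 = -1) :
    JJ (e K a) (e K (ng a)) (e K c) := by
  have h1 : ip C (ng a).1 c.1 = 1 := by rw [ng_val, ip_neg_left, h, neg_neg]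
  unfold JJ
  have e1 : c.1 = (ng a).1 + (Jac_add H h).1 := by
    show c.1 = -a.1 + (a.1 + c.1)
    abel
  rw [br_e_e_zero H (by rw [h1]; norm_num), map_zero, br_e_ng H, map_neg, LinearMap.neg_apply,
    br_hh_e, Jac_br_add H h, map_smul, br_e_e_add H e1, fk_zk_zk, h]
  have e2 : ek K C (ng a).1 (Jac_add H h).1 = -ek K C a.1 c.1 := by
    show ek K C (-a.1) (a.1 + c.1) = _
    rw [ek_neg_left, ek_add_right, ek_self H, neg_one_mul]
  rw [e2, neg_smul, smul_neg, Jac_ek_sq]
  simp

theorem JJ_opp (H : HypW C K) (a c : Rt C) : JJ (e K a) (e K (ng a)) (e K c) := by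
  rcases ip_cases H a c with h | h | h | h | h
  · subst h
    exact JJ_self' H _ _
  · exact JJ_opp_neg H h
  · have h1 : ip C (ng a).1 c.1 = 0 := by rw [ng_val, ip_neg_left, h, neg_zero]
    unfold JJ
    rw [br_e_e_zero H (by rw [h1]), map_zero, br_e_ng H, map_neg, LinearMap.neg_apply,
      br_hh_e, br_e_e_zero H (by rw [h]), fk_zk_zk, h, map_zero]
    simp
  · have h1 : ip C (ng a).1 c.1 = -1 := by rw [ng_val, ip_neg_left, h]
    have h2 := JJ_opp_neg H h1
    rw [ng_ng] at h2
    exact JJ_swap H h2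
  · subst h
    exact JJ_swap' H (JJ_self H _ _)

/-- exactly one product `-1` -/
theorem JJ_one (H : HypW C K) {a b c : Rt C} (h1 : ip C b.1 c.1 = -1) (h2 : 0 ≤ ip C a.1 b.1)
    (h3 : 0 ≤ ip C a.1 c.1) : JJ (e K a) (e K b) (e K c) := by
  unfold JJ
  rw [br_e_e_zero H h2, br_e_e_zero H h3, Jac_br_add H h1, map_smul, br_e_e_zero H]
  · simp
  · show 0 ≤ ip C a.1 (b.1 + c.1)
    rw [ip_add_right]
    exact add_nonneg h2 h3

/-- exactly two products `-1` -/
theorem JJ_two (H : HypW C K) {a b c : Rt C} (h1 : ip C b.1 c.1 = 0 ∨ ip C b.1 c.1 = 1)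
    (h2 : ip C a.1 b.1 = -1) (h3 : ip C a.1 c.1 = -1) : JJ (e K a) (e K b) (e K c) := by
  have hba : ip C b.1 a.1 = -1 := by rw [ip_comm H.symm, h2]
  unfold JJ
  rw [Jac_br_add H h2, Jac_br_add H h3, map_smul, map_smul, LinearMap.smul_apply]
  rcases h1 with h1 | h1
  · rw [br_e_e_zero H (by rw [h1]), map_zero]
    have e1 : ip C (Jac_add H h2).1 c.1 = -1 := by
      show ip C (a.1 + b.1) c.1 = -1
      rw [ip_add_left, h3, h1, add_zero]
    have e2 : (Jac_add H e1).1 = b.1 + (Jac_add H h3).1 := by
      show a.1 + b.1 + c.1 = b.1 + (a.1 + c.1)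
      abel
    rw [Jac_br_add H e1, br_e_e_add H e2, smul_smul, smul_smul, ← add_smul]
    have e3 : ek K C a.1 b.1 * ek K C (Jac_add H h2).1 c.1 +
        ek K C a.1 c.1 * ek K C b.1 (Jac_add H h3).1 = 0 := by
      show ek K C a.1 b.1 * ek K C (a.1 + b.1) c.1 +
        ek K C a.1 c.1 * ek K C b.1 (a.1 + c.1) = 0
      rw [ek_add_left, ek_add_right, ek_comm_odd H a.1 b.1 (by rw [h2]; decide)]
      ring
    rw [e3, zero_smul]
  · rw [br_e_e_zero H (by rw [h1]; norm_num), map_zero, br_e_e_zero H, br_e_e_zero H]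
    · simp
    · show 0 ≤ ip C b.1 (a.1 + c.1)
      rw [ip_add_right, h1, hba]
      norm_num
    · show 0 ≤ ip C (a.1 + b.1) c.1
      rw [ip_add_left, h1, h3]
      norm_num

/-- three products `-1` -/
theorem JJ_three (H : HypW C K) {a b c : Rt C} (h1 : ip C b.1 c.1 = -1)
    (h2 : ip C a.1 b.1 = -1) (h3 : ip C a.1 c.1 = -1) : JJ (e K a) (e K b) (e K c) := by
  have hba : ip C b.1 a.1 = -1 := by rw [ip_comm H.symm, h2]
  have hs : ip C a.1 (Jac_add H h1).1 = -2 := by
    show ip C a.1 (b.1 + c.1) = -2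
    rw [ip_add_right, h2, h3]
    norm_num
  have e1 : Jac_add H h1 = ng a := eq_ng_of_ip H hs
  have e0 : b.1 + c.1 = -a.1 := congrArg Subtype.val e1
  have ec : c.1 = -(a.1 + b.1) := by
    rw [neg_add, ← e0]
    abel
  have e2 : Jac_add H h2 = ng c := by
    apply Subtype.ext
    show a.1 + b.1 = -c.1
    rw [ec, neg_neg]
  have e3 : Jac_add H h3 = ng b := by
    apply Subtype.ext
    show a.1 + c.1 = -b.1
    rw [ec]
    abel
  have k1 : ek K C b.1 c.1 = ek K C a.1 b.1 := by
    rw [ec, ek_neg_right, ek_add_right, ek_self H,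
      ek_comm_odd H a.1 b.1 (by rw [h2]; decide)]
    ring
  have k2 : ek K C a.1 c.1 = -ek K C a.1 b.1 := by
    rw [ec, ek_neg_right, ek_add_right, ek_self H]
    ring
  have hc : br (e K (ng c)) (e K c) = hh C (zk c.1) := by
    have := br_e_ng (K := K) H (ng c)
    rw [ng_ng, ng_val, zk_neg, hh_neg, neg_neg] at this
    exact this
  unfold JJ
  rw [Jac_br_add H h1, Jac_br_add H h2, Jac_br_add H h3, map_smul, map_smul, map_smul,
    LinearMap.smul_apply, e1, e2, e3, br_e_ng H, br_e_ng H, hc, k1, k2]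
  have hz : (zk c.1 : Fin n → K) = -(zk a.1 + zk b.1) := by
    rw [ec, zk_neg, zk_add]
  rw [hz, hh_neg, hh_add]
  module

theorem JJ_eee (H : HypW C K) (a b c : Rt C) : JJ (e K a) (e K b) (e K c) := by
  rcases ip_cases H a b with h1 | h1 | h1 | h1 | h1
  · subst h1
    exact JJ_opp H a c
  on_goal 4 =>
    subst h1
    exact JJ_self H _ _
  all_goals
    rcases ip_cases H a c with h2 | h2 | h2 | h2 | h2
    · subst h2
      exact JJ_swap' H (JJ_opp H a b)
    on_goal 4 =>
      subst h2
      exact JJ_swap' H (JJ_self H _ _)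
    all_goals
      rcases ip_cases H b c with h3 | h3 | h3 | h3 | h3
      · subst h3
        exact JJ_swap H (JJ_swap' H (JJ_opp H b a))
      on_goal 4 =>
        subst h3
        exact JJ_self' H _ _
      all_goals
        have h1' : ip C b.1 a.1 = ip C a.1 b.1 := ip_comm H.symm _ _
        have h2' : ip C c.1 a.1 = ip C a.1 c.1 := ip_comm H.symm _ _
        have h3' : ip C c.1 b.1 = ip C b.1 c.1 := ip_comm H.symm _ _
        first
        | exact JJ_three H h3 h1 h2
        | exact JJ_two H (by omega) h1 h2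
        | exact JJ_swap H (JJ_two H (by omega) (by omega) (by omega))
        | exact JJ_swap' H (JJ_swap H (JJ_two H (by omega) (by omega) (by omega)))
        | exact JJ_one H (by omega) (by omega) (by omega)
        | exact JJ_swap H (JJ_one H (by omega) (by omega) (by omega))
        | exact JJ_swap' H (JJ_swap H (JJ_one H (by omega) (by omega) (by omega)))
        | (unfold JJ
           rw [br_e_e_zero H (by omega), br_e_e_zero H (by omega), br_e_e_zero H (by omega)]
           simp)

theorem jac (H : HypW C K) (x y z : LL C K) :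
    br x (br y z) = br (br x y) z + br y (br x z) := by
  show JJ x y z
  refine JJ_ext (fun h => JJ_hh H h y z) (fun a => ?_) x
  refine JJ_swap H (JJ_ext (fun h => JJ_hh H h _ _) (fun b => ?_) y)
  refine JJ_swap H ?_
  refine JJ_swap' H (JJ_swap H (JJ_ext (fun h => JJ_hh H h _ _) (fun c => ?_) z))
  exact JJ_swap H (JJ_swap' H (JJ_eee H a b c))

end Pool.Agent.H31.F4
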