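import Pool.Agent.H31.F4.B.ExG

/-!
# EL-07: action of the root elements `xr a s = ex (s • e K a)`

All from `ex_apply'`, the basis formulas of `BrB`, `conj_ex`, `ex_add`, `ex_commute`,
`ex_add_comm` (for the commutator: `xr a s (t e_b) = t e_b + s t ε(a,b) e_(a+b)` and the two
summands are commuting extremal vectors, their sum is extremal as an image of `t e_b`).
-/

namespace Pool.Agent.H31.F4

open Pool.Agent.H33.EL (ip cc eps Rt ng zk ek fk LL hh e brf fmf br fm IsExt exl ex xr hd L0 GG T1 TT NN SF cj wt)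

variable {n : ℕ} {C : Matrix (Fin n) (Fin n) ℤ} {K : Type} [Field K] [Fintype (Rt C)]

theorem xr_apply (H : HypW C K) (a : Rt C) (s : K) (x : LL C K) :
    xr a s x = x + s • br (e K a) x + (s ^ 2 * x.2 (ng a)) • e K a := by
  unfold xr
  rw [ex_apply' H (IsExt_smul (isExt_e H a) s), map_smul, LinearMap.smul_apply, map_smul,
    LinearMap.smul_apply, fm_e_left, sub_eq_add_neg, smul_eq_mul, smul_smul, ← neg_smul]
  refine congrArg (fun c : K => x + s • br (e K a) x + c • e K a) ?_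
  ring
theorem xr_mem_GG (H : HypW C K) (a : Rt C) (s : K) : xr a s ∈ GG C K :=
  ex_mem_GG H (IsExt_smul (isExt_e H a) s)
theorem xr_zero (H : HypW C K) (a : Rt C) : xr a (0 : K) = 1 := by
  unfold xr
  rw [zero_smul, ex_zero H]
theorem xr_add (H : HypW C K) (a : Rt C) (s t : K) : xr a (s + t) = xr a s * xr a t :=
  ex_add H (isExt_e H a) s t
theorem xr_neg (H : HypW C K) (a : Rt C) (s : K) : xr a (-s) = (xr a s)⁻¹ := by
  unfold xr
  rw [neg_smul, ex_neg H (IsExt_smul (isExt_e H a) s)]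
theorem xr_pow (H : HypW C K) (a : Rt C) (s : K) (k : ℕ) : xr a s ^ k = xr a (k * s) := by
  unfold xr
  rw [ex_pow H (IsExt_smul (isExt_e H a) s), smul_smul]

theorem XrA_snd_ng (H : HypW C K) {a b : Rt C} (h : -1 ≤ ip C a.1 b.1) :
    (e K b : LL C K).2 (ng a) = 0 := by
  apply e_snd_ne
  intro h1
  rw [← h1, ng_val, ip_neg_right] at h
  have h2 : ip C a.1 a.1 = 2 := a.2
  omega

theorem xr_hh (H : HypW C K) (a : Rt C) (s : K) (h : Fin n → K) :
    xr a s (hh C h) = hh C h - (s * fk C h (zk a.1)) • e K a := by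
  rw [xr_apply H, br_e_hh, hh_snd, mul_zero, zero_smul, add_zero, smul_smul, sub_eq_add_neg,
    ← neg_smul, mul_neg]
theorem xr_inj (H : HypW C K) (a : Rt C) {s t : K} (h : xr a s = xr a t) : s = t := by
  obtain ⟨y, hy⟩ := exists_one H a
  have h1 : xr a s (hh C (zk y.1)) = xr a t (hh C (zk y.1)) := by rw [h]
  rw [xr_hh H, xr_hh H, fk_zk_zk, hy, Int.cast_one, mul_one, mul_one, sub_right_inj] at h1
  have h2 := congrFun (congrArg Prod.snd h1) a
  simpa [e_snd_self] using h2
theorem xr_e_nonneg (H : HypW C K) (a : Rt C) (s : K) {b : Rt C} (h : 0 ≤ ip C a.1 b.1) :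
    xr a s (e K b) = e K b := by
  rw [xr_apply H, br_e_e_zero H h, XrA_snd_ng H (by omega), mul_zero, zero_smul, add_zero,
    smul_zero, add_zero]
theorem xr_e_add (H : HypW C K) (a : Rt C) (s : K) {b c : Rt C} (hc : c.1 = a.1 + b.1) :
    xr a s (e K b) = e K b + (s * ek K C a.1 b.1) • e K c := by
  have h1 : ip C a.1 b.1 = -1 := ip_of_root_add H (by rw [← hc]; exact c.2)
  rw [xr_apply H, br_e_e_add H hc, XrA_snd_ng H (by omega), mul_zero, zero_smul, add_zero,
    smul_smul]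
theorem xr_e_ng (H : HypW C K) (a : Rt C) (s : K) :
    xr a s (e K (ng a)) = e K (ng a) - s • hh C (zk a.1) + (s ^ 2) • e K a := by
  rw [xr_apply H, br_e_ng H, e_snd_self, mul_one, smul_neg, ← sub_eq_add_neg]

/-- coordinates -/
theorem xr_snd_one (H : HypW C K) (a : Rt C) (s : K) (x : LL C K) (r d : Rt C)
    (hd : d.1 = r.1 - a.1) : (xr a s x).2 r = x.2 r + s * ek K C a.1 d.1 * x.2 d := by
  have h1 : ip C r.1 a.1 = 1 := ip_of_root_sub H (by rw [← hd]; exact d.2)
  have h2 : r ≠ a := by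
    intro h3
    rw [h3] at h1
    have h2 : ip C a.1 a.1 = 2 := a.2
    omega
  rw [xr_apply H, Prod.snd_add, Prod.snd_add, Pi.add_apply, Pi.add_apply, Prod.smul_snd,
    Prod.smul_snd, Pi.smul_apply, Pi.smul_apply, smul_eq_mul, smul_eq_mul,
    br_e_snd H a x r h1 d hd, e_snd_ne h2, mul_zero, add_zero, mul_assoc]
theorem xr_snd_self (H : HypW C K) (a : Rt C) (s : K) (x : LL C K) :
    (xr a s x).2 a = x.2 a - s * fk C x.1 (zk a.1) + s ^ 2 * x.2 (ng a) := by
  rw [xr_apply H, Prod.snd_add, Prod.snd_add, Pi.add_apply, Pi.add_apply, Prod.smul_snd,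
    Prod.smul_snd, Pi.smul_apply, Pi.smul_apply, smul_eq_mul, smul_eq_mul,
    br_e_snd_self H, e_snd_self, mul_one, mul_neg, ← sub_eq_add_neg]
theorem xr_snd_other (H : HypW C K) (a : Rt C) (s : K) (x : LL C K) (r : Rt C)
    (hr : ip C r.1 a.1 ≠ 1) (hra : r ≠ a) : (xr a s x).2 r = x.2 r := by
  rw [xr_apply H, Prod.snd_add, Prod.snd_add, Pi.add_apply, Pi.add_apply, Prod.smul_snd,
    Prod.smul_snd, Pi.smul_apply, Pi.smul_apply, smul_eq_mul, smul_eq_mul,
    br_e_snd_zero H a x r hr hra, e_snd_ne hra, mul_zero, add_zero, mul_zero, add_zero]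
theorem xr_fst (H : HypW C K) (a : Rt C) (s : K) (x : LL C K) :
    (xr a s x).1 = x.1 - (s * x.2 (ng a)) • zk a.1 := by
  rw [xr_apply H, Prod.fst_add, Prod.fst_add, Prod.smul_fst, Prod.smul_fst, br_e_fst H, e_fst,
    smul_zero, add_zero, smul_smul, sub_eq_add_neg, ← neg_smul, mul_neg]

theorem xr_comm (H : HypW C K) {a b : Rt C} (h : 0 ≤ ip C a.1 b.1) (s t : K) :
    xr a s * xr b t = xr b t * xr a s := by
  refine ex_commute H (IsExt_smul (isExt_e H a) s) (IsExt_smul (isExt_e H b) t) ?_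
  rw [map_smul, map_smul, LinearMap.smul_apply, br_e_e_zero H h, smul_zero, smul_zero]
theorem xr_conj_add (H : HypW C K) {a b c : Rt C} (hc : c.1 = a.1 + b.1) (s t : K) :
    xr a s * xr b t * (xr a s)⁻¹ = xr b t * xr c (s * t * ek K C a.1 b.1) := by
  have hb : IsExt (t • e K b : LL C K) := IsExt_smul (isExt_e H b) t
  have hc1 : IsExt ((s * t * ek K C a.1 b.1) • e K c : LL C K) := IsExt_smul (isExt_e H c) _
  have h0 : xr a s * xr b t * (xr a s)⁻¹ = ex (xr a s (t • e K b)) :=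
    conj_ex H hb (xr_mem_GG H a s)
  have h1 : xr a s (t • e K b) = t • e K b + (s * t * ek K C a.1 b.1) • e K c := by
    rw [map_smul, xr_e_add H a s hc, smul_add, smul_smul]
    refine congrArg (fun c0 : K => t • e K b + c0 • e K c) ?_
    ring
  have h2 : IsExt (t • e K b + (s * t * ek K C a.1 b.1) • e K c : LL C K) := by
    rw [← h1]
    exact IsExt_map hb (xr_mem_GG H a s)
  have h3 : ip C a.1 b.1 = -1 := ip_of_root_add H (by rw [← hc]; exact c.2)
  have h4 : ip C b.1 c.1 = 1 := by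
    have h5 : ip C b.1 b.1 = 2 := b.2
    rw [hc, ip_add_right, ip_comm H.symm b.1 a.1, h3, h5]
    norm_num
  rw [h0, h1]
  refine ex_add_comm H hb hc1 h2 ?_ ?_
  · rw [map_smul, map_smul, LinearMap.smul_apply, br_e_e_zero H (by omega), smul_zero,
      smul_zero]
  · rw [map_smul, map_smul, LinearMap.smul_apply, fm_e_left, XrA_snd_ng H (by omega),
      neg_zero, smul_zero, smul_zero]
/-- conjugation by an automorphism which maps `e a` to a multiple of `e b` -/
theorem xr_conj (H : HypW C K) {g : LL C K ≃ₗ[K] LL C K} (hg : g ∈ GG C K) {a b : Rt C} {k : K}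
    (hk : g (e K a) = k • e K b) (s : K) : g * xr a s * g⁻¹ = xr b (k * s) := by
  have h1 : g * xr a s * g⁻¹ = ex (g (s • e K a)) := conj_ex H (IsExt_smul (isExt_e H a) s) hg
  rw [h1, map_smul, hk, smul_smul, mul_comm s k]
  rfl
theorem conj_xr (H : HypW C K) {g : LL C K ≃ₗ[K] LL C K} (hg : g ∈ GG C K) (a : Rt C)
    (s : K) : g * xr a s * g⁻¹ = ex (s • g (e K a)) := by
  have h1 : g * xr a s * g⁻¹ = ex (g (s • e K a)) := conj_ex H (IsExt_smul (isExt_e H a) s) hg
  rw [h1, map_smul]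
/-- opposite root elements do not commute -/
theorem xr_ng_not_comm (H : HypW C K) (a : Rt C) {s t : K} (hs : s ≠ 0) (ht : t ≠ 0) :
    xr a s * xr (ng a) t ≠ xr (ng a) t * xr a s := by
  intro h
  have h1 : xr a s (xr (ng a) t (e K a)) = xr (ng a) t (xr a s (e K a)) := by
    rw [← LinearEquiv.mul_apply, h, LinearEquiv.mul_apply]
  have h2 : xr a s (e K a) = e K a := xr_e_nonneg H a s (by
    have h5 : ip C a.1 a.1 = 2 := a.2
    omega)
  rw [h2] at h1
  have h3 := congrArg Prod.fst h1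
  have h4 : (xr (ng a) t (e K a)).2 (ng a) = t ^ 2 := by
    rw [xr_snd_self H, ng_ng, e_snd_self, e_fst, fk_zero_left,
      e_snd_ne (ng_ne H a), mul_zero, sub_zero, zero_add, mul_one]
  rw [xr_fst H, h4] at h3
  have h5 := sub_eq_self.1 h3
  rcases smul_eq_zero.1 h5 with h6 | h6
  · rcases mul_eq_zero.1 h6 with h7 | h7
    · exact hs h7
    · exact ht ((pow_eq_zero_iff two_ne_zero).1 h7)
  · obtain ⟨y, hy⟩ := exists_one H a
    have h7 := fk_zk_zk (K := K) (C := C) y.1 a.1
    rw [h6, fk_zero_right, hy, Int.cast_one] at h7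
    exact zero_ne_one h7

end Pool.Agent.H31.F4
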